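import Mathlib
import Pool.Agent.Q70.UrG

set_option autoImplicit false

/-!
# Under-recurrent functions without under-recurrent sets

There is an ergodic invertible system on a standard probability space which has an under-recurrent
function with values in `[0, 1]` but has no under-recurrent set.

The system is an extension of the odometer in base six by the cyclic group of order six. The
cocycle comes from the sequence `∑ n_j (n_{j+1} + 1)` in the digits `n_j` of `n` in base six. The
characters of order six of the fibre have vanishing correlations at all nonzero times, while the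
functions living on the characters of order one, two or three do not decorrelate along the times
`2 * 6 ^ k` and `3 * 6 ^ k`. A set whose self-correlations do not exceed the square of its measure
in the limit would have to be orthogonal to those characters, so its measure times two and its
measure times three would be integers.
-/

open MeasureTheory Set Filter Topology

namespace Pool.Agent.Results.MP_73c876_an.NoUnderRecurrentSet

/-- `A` is an under-recurrent set of the system `(X, μ, T)`. -/
def UnderRecurrentSet {X : Type} [MeasurableSpace X] (μ : Measure X) (T : X → X) (A : Set X) :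
    Prop :=
  MeasurableSet A ∧ 0 < μ A ∧ μ A < 1 ∧
    ∀ n : ℕ, 1 ≤ n → μ (A ∩ T^[n] ⁻¹' A) ≤ μ A ^ 2

/-- `f` is an under-recurrent function of the system `(X, μ, T)`. -/
def UnderRecurrentFunction {X : Type} [MeasurableSpace X] (μ : Measure X) (T : X → X)
    (f : X → ℝ) : Prop :=
  MemLp f 2 μ ∧ (¬ ∃ c : ℝ, f =ᵐ[μ] fun _ => c) ∧
    ∀ n : ℕ, 1 ≤ n → ∫ x, f x * f (T^[n] x) ∂μ ≤ (∫ x, f x ∂μ) ^ 2

/-- the inverse of the odometer: subtract one with borrow -/
noncomputable def pd (y : Q70.Ur.Y) : Q70.Ur.Y :=
  fun n => if ∀ i < n, y i = 0 then y n - 1 else y n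

lemma all_sc (y : Q70.Ur.Y) (n : ℕ) : (∀ i < n, Q70.Ur.sc y i = 0) ↔ ∀ i < n, y i = 5 := by
  induction n with
  | zero => simp
  | succ n ih =>
    constructor
    · intro h i hi
      have h1 : ∀ i < n, y i = 5 := ih.1 fun i hi => h i (by omega)
      rcases Nat.lt_succ_iff_lt_or_eq.1 hi with h2 | rfl
      · exact h1 i h2
      · have h3 := h i (by omega)
        simp only [Q70.Ur.sc, if_pos h1] at h3
        have : y i = -1 := eq_neg_of_add_eq_zero_left h3
        rw [this]; decide
    · intro h i hi
      have h1 : ∀ k < i, y k = 5 := fun k hk => h k (by omega)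
      simp only [Q70.Ur.sc, if_pos h1, h i hi]
      decide

lemma all_pd (y : Q70.Ur.Y) (n : ℕ) : (∀ i < n, pd y i = 5) ↔ ∀ i < n, y i = 0 := by
  induction n with
  | zero => simp
  | succ n ih =>
    constructor
    · intro h i hi
      have h1 : ∀ i < n, y i = 0 := ih.1 fun i hi => h i (by omega)
      rcases Nat.lt_succ_iff_lt_or_eq.1 hi with h2 | rfl
      · exact h1 i h2
      · have h3 := h i (by omega)
        simp only [pd, if_pos h1] at h3
        have : y i = 5 + 1 := sub_eq_iff_eq_add.1 h3
        rw [this]; decide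
    · intro h i hi
      have h1 : ∀ k < i, y k = 0 := fun k hk => h k (by omega)
      simp only [pd, if_pos h1, h i hi]
      decide

lemma pd_sc (y : Q70.Ur.Y) : pd (Q70.Ur.sc y) = y := by
  funext n
  unfold pd
  by_cases h : ∀ i < n, y i = 5
  · rw [if_pos ((all_sc y n).2 h)]
    simp only [Q70.Ur.sc, if_pos h]
    ring
  · rw [if_neg (fun h' => h ((all_sc y n).1 h'))]
    simp only [Q70.Ur.sc, if_neg h]

lemma sc_pd (y : Q70.Ur.Y) : Q70.Ur.sc (pd y) = y := by
  funext n
  unfold Q70.Ur.sc
  by_cases h : ∀ i < n, y i = 0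
  · rw [if_pos ((all_pd y n).2 h)]
    simp only [pd, if_pos h]
    ring
  · rw [if_neg (fun h' => h ((all_pd y n).1 h'))]
    simp only [pd, if_neg h]

lemma measurable_pd : Measurable pd := by
  refine measurable_pi_iff.2 fun n => ?_
  have hs : MeasurableSet {y : Q70.Ur.Y | ∀ i < n, y i = 0} := by
    have : {y : Q70.Ur.Y | ∀ i < n, y i = 0} =
        ⋂ i : ℕ, ⋂ _ : i < n, (fun y : Q70.Ur.Y => y i) ⁻¹' {0} := by
      ext y; simp
    rw [this]
    exact MeasurableSet.iInter fun i => MeasurableSet.iInter fun _ =>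
      measurable_pi_apply i (measurableSet_singleton 0)
  have h1 : Measurable fun a : ZMod 6 => a - 1 := measurable_of_countable _
  exact Measurable.ite hs (h1.comp (measurable_pi_apply n)) (measurable_pi_apply n)

/-- the transformation as a measurable equivalence -/
noncomputable def Te : Q70.Ur.X ≃ᵐ Q70.Ur.X where
  toFun := Q70.Ur.T
  invFun x := (pd x.1, x.2 - Q70.Ur.ph (pd x.1))
  left_inv x := by
    simp only [Q70.Ur.T, pd_sc, add_sub_cancel_right]
  right_inv x := by
    simp only [Q70.Ur.T, sc_pd, sub_add_cancel]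
  measurable_toFun := Q70.Ur.measurable_T
  measurable_invFun := by
    refine (measurable_pd.comp measurable_fst).prodMk ?_
    have h1 : Measurable fun p : ZMod 6 × ZMod 6 => p.1 - p.2 := measurable_of_countable _
    exact h1.comp (measurable_snd.prodMk
      (Q70.Ur.measurable_ph.comp (measurable_pd.comp measurable_fst)))

/-- **Q1 has a negative answer, also for ergodic invertible systems.** There are a standard
probability space `(X, μ)`, an ergodic invertible measure-preserving transformation `T` of it and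
`f : X → [0, 1]`, not a.e. constant, with `∫ f · f ∘ T^n = (∫ f)^2` for all `n ≥ 1`, so that `f` is
an under-recurrent function, while no set is under-recurrent. Moreover every measurable `A`
with `0 < μ A < 1` satisfies `limsup μ (A ∩ T^{-n} A) > (μ A)^2`. -/
theorem result : ∃ (X : Type) (_ : MeasurableSpace X) (μ : Measure X) (T : X ≃ᵐ X),
    StandardBorelSpace X ∧ IsProbabilityMeasure μ ∧ Ergodic T μ ∧
    (∃ f : X → ℝ, (∀ x, 0 ≤ f x ∧ f x ≤ 1) ∧ UnderRecurrentFunction μ T f ∧
      ∀ n : ℕ, 1 ≤ n → ∫ x, f x * f (T^[n] x) ∂μ = (∫ x, f x ∂μ) ^ 2) ∧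
    (∀ A : Set X, ¬ UnderRecurrentSet μ T A) ∧
    ∀ A : Set X, MeasurableSet A → 0 < μ.real A → μ.real A < 1 →
      ∃ c, μ.real A ^ 2 < c ∧ ∃ᶠ n in atTop, c < μ.real (A ∩ T^[n] ⁻¹' A) := by
  have hmain : ∀ A : Set Q70.Ur.X, MeasurableSet A → 0 < Q70.Ur.μ.real A → Q70.Ur.μ.real A < 1 →
      ∃ c, Q70.Ur.μ.real A ^ 2 < c ∧
        ∃ᶠ n in atTop, c < Q70.Ur.μ.real (A ∩ (Te : Q70.Ur.X → Q70.Ur.X)^[n] ⁻¹' A) :=
    fun A hA h0 h1 => Q70.Ur.too_often hA h0 h1
  refine ⟨Q70.Ur.X, inferInstance, Q70.Ur.μ, Te, inferInstance, inferInstance,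
    Q70.Ur.ergodic_T, ⟨Q70.Ur.f, Q70.Ur.f_mem, ⟨?_, Q70.Ur.f_not_const, ?_⟩, ?_⟩, ?_, hmain⟩
  · refine MemLp.of_bound Q70.Ur.measurable_f.aestronglyMeasurable 1
      (Eventually.of_forall fun x => ?_)
    rw [Real.norm_eq_abs, abs_le]
    constructor <;> linarith [(Q70.Ur.f_mem x).1, (Q70.Ur.f_mem x).2]
  · exact fun n hn => (Q70.Ur.corr_f' n hn).le
  · exact fun n hn => Q70.Ur.corr_f' n hn
  · rintro A ⟨hA, h0, h1, h⟩
    have r0 : 0 < Q70.Ur.μ.real A := by
      rw [measureReal_def]; exact ENNReal.toReal_pos h0.ne' (measure_ne_top _ _)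
    have r1 : Q70.Ur.μ.real A < 1 := by
      rw [measureReal_def]
      have := (ENNReal.toReal_lt_toReal (measure_ne_top _ _) ENNReal.one_ne_top).2 h1
      simpa using this
    obtain ⟨c, hc, hf⟩ := hmain A hA r0 r1
    obtain ⟨n, hn, hn1⟩ := (hf.and_eventually (eventually_ge_atTop 1)).exists
    have h2 := (ENNReal.toReal_le_toReal (measure_ne_top _ _)
      (ENNReal.pow_ne_top (measure_ne_top _ _))).2 (h n hn1)
    rw [ENNReal.toReal_pow] at h2
    simp only [measureReal_def] at hc hn
    linarith

end Pool.Agent.Results.MP_73c876_an.NoUnderRecurrentSet
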